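import Mathlib

/-!
# The largest square drop for two holes and length 22 exceeds `⌊7 (n - 1) / 10⌋`

The binary partial word `11101111101◇◇111011111` of length `22` has two holes; filling its first
hole with `0` destroys `15` distinct squares, while `⌊7 * 21 / 10⌋ = 14`.
-/

set_option autoImplicit false

namespace Pool.Agent.Results.MP_322323_co.DropAtTwentyTwo

/-- `u ⊂ v` for a partial word `u` (`none` is the hole) and a full word `v`: equal lengths, and
`v` carries the letter of `u` at every place where `u` is not a hole. -/
def Fits (u : List (Option Bool)) (v : List Bool) : Prop :=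
  List.Forall₂ (fun a b => a = none ∨ a = some b) u v

instance (u : List (Option Bool)) (v : List Bool) : Decidable (Fits u v) := by
  unfold Fits; infer_instance

/-- the set of nonempty full words `x` such that some factor `u` of `w` satisfies `u ⊂ x x` -/
def sqSet (w : List (Option Bool)) : Set (List Bool) :=
  {x | x ≠ [] ∧ ∃ u, u <:+: w ∧ Fits u (x ++ x)}

/-- `Sq w`: the number of distinct squares of the partial word `w` -/
noncomputable def Sq (w : List (Option Bool)) : ℕ := (sqSet w).ncard

/-- `w'` is obtained from `w` by replacing exactly one hole by a letter -/
def Strengthening (w w' : List (Option Bool)) : Prop :=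
  ∃ (s t : List (Option Bool)) (b : Bool), w = s ++ none :: t ∧ w' = s ++ some b :: t

/-- `Δ_h Sq (n)`: the largest value of `Sq w - Sq w'` over the binary partial words `w` of length
`n` with exactly `h` holes and the strengthenings `w'` of `w`. -/
noncomputable def maxDrop (h n : ℕ) : ℤ :=
  sSup {z : ℤ | ∃ w w' : List (Option Bool), w.length = n ∧ w.count none = h ∧
    Strengthening w w' ∧ z = (Sq w : ℤ) - (Sq w' : ℤ)}

theorem Fits.length_eq {u : List (Option Bool)} {v : List Bool} (h : Fits u v) :
    u.length = v.length := List.Forall₂.length_eq h

/-- the words of length at most `n` -/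
def short (n : ℕ) : Set (List Bool) := {x | x.length ≤ n}

theorem finite_short (n : ℕ) : (short n).Finite := List.finite_length_le Bool n

theorem sqSet_subset (w : List (Option Bool)) : sqSet w ⊆ short w.length := by
  rintro x ⟨_, u, hu, hf⟩
  have h1 := hu.length_le
  have h2 := hf.length_eq
  rw [List.length_append] at h2
  show x.length ≤ w.length
  omega

theorem finite_sqSet (w : List (Option Bool)) : (sqSet w).Finite :=
  (finite_short w.length).subset (sqSet_subset w)

theorem mem_iff (w : List (Option Bool)) (x : List Bool) :
    x ∈ sqSet w ↔ x ≠ [] ∧ ∃ i ∈ List.range (w.length + 1),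
      Fits ((w.drop i).take (x ++ x).length) (x ++ x) := by
  constructor
  · rintro ⟨h0, u, ⟨s, t, hst⟩, hf⟩
    refine ⟨h0, s.length, ?_, ?_⟩
    · rw [List.mem_range, ← hst]
      simp only [List.length_append]
      omega
    · rw [← hf.length_eq, ← hst, List.append_assoc, List.drop_left, List.take_left]
      exact hf
  · rintro ⟨h0, i, _, hf⟩
    refine ⟨h0, _, ?_, hf⟩
    exact (List.take_prefix _ _).isInfix.trans (List.drop_suffix _ _).isInfix

instance (w : List (Option Bool)) (x : List Bool) : Decidable (x ∈ sqSet w) :=
  decidable_of_iff _ (mem_iff w x).symm

theorem fits_of_le {u u' : List (Option Bool)} {v : List Bool}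
    (h : List.Forall₂ (fun a b : Option Bool => a = none ∨ a = b) u u') (hf : Fits u' v) :
    Fits u v := by
  unfold Fits at hf ⊢
  induction h generalizing v with
  | nil => exact hf
  | cons hab _ ih =>
    cases hf with
    | cons h1 h2 =>
      refine List.Forall₂.cons ?_ (ih h2)
      rcases hab with h | h
      · exact Or.inl h
      · rw [h]; exact h1

theorem sqSet_mono {w w' : List (Option Bool)} (h : Strengthening w w') : sqSet w' ⊆ sqSet w := by
  obtain ⟨s, t, b, rfl, rfl⟩ := h
  intro x hx
  rw [mem_iff] at hx ⊢
  obtain ⟨h0, i, hi, hf⟩ := hx
  refine ⟨h0, i, by simpa using hi, ?_⟩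
  have key : List.Forall₂ (fun a b : Option Bool => a = none ∨ a = b)
      (s ++ none :: t) (s ++ some b :: t) := by
    apply List.rel_append
    · exact List.forall₂_same.2 (fun a _ => Or.inr rfl)
    · refine List.Forall₂.cons (Or.inl rfl) ?_
      exact List.forall₂_same.2 (fun a _ => Or.inr rfl)
  exact fits_of_le (List.forall₂_take _ (List.forall₂_drop i key)) hf

theorem bdd (h n : ℕ) : BddAbove {z : ℤ | ∃ w w' : List (Option Bool), w.length = n ∧
    w.count none = h ∧ Strengthening w w' ∧ z = (Sq w : ℤ) - (Sq w' : ℤ)} := by
  refine ⟨((short n).ncard : ℤ), ?_⟩
  rintro z ⟨w, w', rfl, _, _, rfl⟩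
  have h1 : Sq w ≤ (short w.length).ncard :=
    Set.ncard_le_ncard (sqSet_subset w) (finite_short w.length)
  have h2 : (0 : ℤ) ≤ (Sq w' : ℤ) := Int.natCast_nonneg _
  have h3 : (Sq w : ℤ) ≤ ((short w.length).ncard : ℤ) := by exact_mod_cast h1
  linarith

/-- a partial word with two holes: `11101111101◇◇111011111` -/
def W : List (Option Bool) :=
  [some true, some true, some true, some false, some true, some true, some true, some true,
   some true, some false, some true, none, none, some true, some true, some true, some false,
   some true, some true, some true, some true, some true]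

/-- its first hole is filled with `0` -/
def W' : List (Option Bool) :=
  [some true, some true, some true, some false, some true, some true, some true, some true,
   some true, some false, some true, some false, none, some true, some true, some true, some false,
   some true, some true, some true, some true, some true]

/-- fifteen words whose squares disappear -/
def lost : List (List Bool) :=
  [[false, true, true], [true, false, true], [true, true, false], [true, true, true],
   [true, false, true, true], [true, true, false, true],
   [false, true, true, true, true, true], [true, false, true, true, true, true],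
   [true, true, false, true, true, true], [true, true, true, false, true, true],
   [true, false, true, true, true, true, true], [true, true, false, true, true, true, true],
   [true, true, true, false, true, true, true], [true, true, true, true, false, true, true],
   [true, true, true, true, true, false, true]]

theorem lost_mem : ∀ x ∈ lost, x ∈ sqSet W := by decide +kernel

theorem lost_not_mem : ∀ x ∈ lost, x ∉ sqSet W' := by decide +kernel

theorem lost_nodup : lost.Nodup := by decide +kernel

theorem strength : Strengthening W W' :=
  ⟨[some true, some true, some true, some false, some true, some true, some true, some true,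
   some true, some false, some true], [none, some true, some true, some true, some false,
   some true, some true, some true, some true, some true], false, rfl, rfl⟩

theorem drop_ge : (15 : ℤ) ≤ (Sq W : ℤ) - (Sq W' : ℤ) := by
  have h1 : (lost.toFinset : Set (List Bool)) ⊆ sqSet W \ sqSet W' := by
    intro x hx
    have hx' : x ∈ lost := by simpa using hx
    exact ⟨lost_mem x hx', lost_not_mem x hx'⟩
  have h2 : (sqSet W \ sqSet W').ncard + (sqSet W').ncard = (sqSet W).ncard :=
    Set.ncard_sdiff_add_ncard_of_subset (sqSet_mono strength) (finite_sqSet W)
  have h3 : (lost.toFinset : Set (List Bool)).ncard ≤ (sqSet W \ sqSet W').ncard :=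
    Set.ncard_le_ncard h1 ((finite_sqSet W).subset Set.sdiff_subset)
  rw [Set.ncard_coe_finset, List.toFinset_card_of_nodup lost_nodup] at h3
  have h4 : lost.length = 15 := rfl
  unfold Sq
  omega

/-- The formula `Δ_2 Sq (n) = ⌊7 (n - 1) / 10⌋` fails for `n = 22`: the left side is at least
`15`, the right side is `14`. So it does not hold for every `n ≥ 8`. -/
theorem result :
    15 ≤ maxDrop 2 22 ∧ ¬ ∀ n : ℕ, 8 ≤ n → maxDrop 2 n = ⌊(7 * ((n : ℚ) - 1) / 10)⌋ := by
  have h : (15 : ℤ) ≤ maxDrop 2 22 := by
    refine le_trans drop_ge ?_
    apply le_csSup (bdd 2 22)
    exact ⟨W, W', rfl, by decide +kernel, strength, rfl⟩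
  refine ⟨h, ?_⟩
  intro hall
  have h2 := hall 22 (by norm_num)
  rw [h2] at h
  norm_num at h

end Pool.Agent.Results.MP_322323_co.DropAtTwentyTwo
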